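import Mathlib

set_option autoImplicit false

namespace Pool.Agent.Helper26

/-! Specker's theorem and Łoś's theorem for the index set of continuum size. -/

/-- An additive map `ℤ^ℕ → ℤ` that kills all unit vectors kills `p^n`-weighted sequences. -/
lemma weighted_zero (φ : (ℕ → ℤ) →+ ℤ) (h : ∀ n, φ (Pi.single n 1) = 0) (p : ℤ) (hp : 2 ≤ p)
    (a : ℕ → ℤ) : φ (fun n => p ^ n * a n) = 0 := by
  -- finitely supported prefix is killed
  have hfin : ∀ (k : ℕ) (b : ℕ → ℤ), φ (fun n => if n < k then b n else 0) = 0 := by
    intro k b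
    have : (fun n => if n < k then b n else 0)
        = ∑ n ∈ Finset.range k, b n • (Pi.single n (1 : ℤ) : ℕ → ℤ) := by
      funext m
      simp only [Finset.sum_apply, Pi.smul_apply, smul_eq_mul, Pi.single_apply, mul_ite, mul_one,
        mul_zero]
      rw [Finset.sum_ite_eq]
      simp
    rw [this, map_sum]
    apply Finset.sum_eq_zero
    intro n _
    rw [map_zsmul, h n, smul_zero]
  have hdvd : ∀ k : ℕ, p ^ k ∣ φ (fun n => p ^ n * a n) := by
    intro k
    have hsplit : (fun n => p ^ n * a n)
        = (fun n => if n < k then p ^ n * a n else 0)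
          + (p ^ k) • (fun n => if n < k then 0 else p ^ (n - k) * a n) := by
      funext n
      simp only [Pi.add_apply, Pi.smul_apply, smul_eq_mul]
      by_cases hn : n < k
      · simp [hn]
      · simp only [hn, if_false, zero_add]
        rw [← mul_assoc, ← pow_add]
        congr 2
        omega
    rw [hsplit, map_add, hfin, zero_add, map_zsmul, smul_eq_mul]
    exact Dvd.intro _ rfl
  by_contra hne
  obtain ⟨k, hk⟩ : ∃ k : ℕ, |φ (fun n => p ^ n * a n)| < p ^ k := by
    obtain ⟨k, hk⟩ := pow_unbounded_of_one_lt |φ (fun n => p ^ n * a n)| (by omega : (1 : ℤ) < p)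
    exact ⟨k, hk⟩
  exact hne (Int.eq_zero_of_abs_lt_dvd (hdvd k) hk)

/-- Specker: an additive map `ℤ^ℕ → ℤ` that kills all unit vectors is zero. -/
lemma specker_zero (φ : (ℕ → ℤ) →+ ℤ) (h : ∀ n, φ (Pi.single n 1) = 0) (x : ℕ → ℤ) : φ x = 0 := by
  have hb : ∀ n, ∃ a b : ℤ, x n = 2 ^ n * a + 3 ^ n * b := by
    intro n
    have hc : IsCoprime ((2 : ℤ) ^ n) (3 ^ n) := by
      apply IsCoprime.pow
      exact ⟨-1, 1, by norm_num⟩
    obtain ⟨u, v, huv⟩ := hc
    refine ⟨u * x n, v * x n, ?_⟩
    calc x n = (u * 2 ^ n + v * 3 ^ n) * x n := by rw [huv, one_mul]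
      _ = _ := by ring
  choose a b hab using hb
  have : x = (fun n => 2 ^ n * a n) + (fun n => 3 ^ n * b n) := by
    funext n
    exact hab n
  rw [this, map_add, weighted_zero φ h 2 (by norm_num), weighted_zero φ h 3 (by norm_num), add_zero]

/-- Specker: an additive map `ℤ^ℕ → ℤ` kills some unit vector. -/
lemma specker_exists (φ : (ℕ → ℤ) →+ ℤ) : ∃ n, φ (Pi.single n 1) = 0 := by
  by_contra hcon
  push Not at hcon
  let c : ℕ → ℤ := fun n => ∏ i ∈ Finset.range n, (|φ (Pi.single i 1)| + 1)
  have hcpos : ∀ n, 0 < c n := by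
    intro n
    apply Finset.prod_pos
    intro i _
    positivity
  have hcs : ∀ n, c (n + 1) = c n * (|φ (Pi.single n 1)| + 1) := by
    intro n
    exact Finset.prod_range_succ _ n
  have hcd : ∀ m n, m ≤ n → c m ∣ c n := by
    intro m n hmn
    exact Finset.prod_dvd_prod_of_subset _ _ _ (Finset.range_mono hmn)
  let X : (ℕ → Bool) → (ℕ → ℤ) := fun ε n => if ε n then c n else 0
  have hninj : ¬ Function.Injective (fun ε => φ (X ε)) := by
    intro hinj
    have h2 : Cardinal.mk (ℕ → Bool) = 2 ^ Cardinal.aleph0 := by simp
    have h1 : Cardinal.mk (ℕ → Bool) ≤ Cardinal.aleph0 :=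
      Cardinal.mk_le_aleph0_iff.mpr hinj.countable
    rw [h2] at h1
    exact absurd h1 (not_le.mpr (Cardinal.cantor _))
  rw [Function.not_injective_iff] at hninj
  obtain ⟨ε, ε', heq, hne⟩ := hninj
  have hex : ∃ m, ε m ≠ ε' m := by
    by_contra h
    push Not at h
    exact hne (funext h)
  classical
  let m := Nat.find hex
  have hm : ε m ≠ ε' m := Nat.find_spec hex
  have hmin : ∀ k < m, ε k = ε' k := by
    intro k hk
    have := Nat.find_min hex hk
    push Not at this
    exact this
  -- the difference
  obtain ⟨y, s, hs, hy⟩ : ∃ (y : ℕ → ℤ) (s : ℤ), (s = 1 ∨ s = -1) ∧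
      X ε - X ε' = (s * c m) • (Pi.single m (1 : ℤ) : ℕ → ℤ) + c (m + 1) • y := by
    refine ⟨fun n => if n ≤ m then 0 else (X ε n - X ε' n) / c (m + 1),
      if ε m then 1 else -1, ?_, ?_⟩
    · by_cases h : ε m <;> simp [h]
    · funext n
      simp only [Pi.sub_apply, Pi.add_apply, Pi.smul_apply, smul_eq_mul, Pi.single_apply]
      rcases lt_trichotomy n m with h | h | h
      · have h1 : n ≠ m := ne_of_lt h
        have h2 : n ≤ m := le_of_lt h
        simp only [h1, h2, if_true, if_false, mul_zero, add_zero]
        simp only [X, hmin n h, sub_self]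
      · subst h
        simp only [le_refl, if_true, mul_one, mul_zero, add_zero]
        simp only [X]
        cases h1 : ε m <;> cases h2 : ε' m
        · exact absurd (h1.trans h2.symm) hm
        · simp
        · simp
        · exact absurd (h1.trans h2.symm) hm
      · have h1 : n ≠ m := ne_of_gt h
        have h2 : ¬ n ≤ m := not_le.mpr h
        simp only [h1, h2, if_false, mul_zero, zero_add]
        rw [Int.mul_ediv_cancel']
        have hd : c (m + 1) ∣ c n := hcd _ _ h
        apply dvd_sub
        · simp only [X]
          split_ifs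
          · exact hd
          · exact dvd_zero _
        · simp only [X]
          split_ifs
          · exact hd
          · exact dvd_zero _
  have hφ : φ (X ε - X ε') = 0 := by
    rw [map_sub]
    exact sub_eq_zero.mpr heq
  rw [hy, map_add, map_zsmul, map_zsmul, smul_eq_mul, smul_eq_mul, hcs m] at hφ
  set t := φ (Pi.single m 1) with ht
  have h3 : (|t| + 1) ∣ s * t := by
    have h4 : c m * (s * t + (|t| + 1) * φ y) = 0 := by
      linear_combination hφ
    have h5 : s * t + (|t| + 1) * φ y = 0 := by
      rcases mul_eq_zero.mp h4 with h | h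
      · exact absurd h (hcpos m).ne'
      · exact h
    exact ⟨-φ y, by linear_combination h5⟩
  have h6 : (|t| + 1) ∣ t := by
    rcases hs with h | h
    · rw [h, one_mul] at h3; exact h3
    · rw [h] at h3
      have : (-1 : ℤ) * t = -t := by ring
      rw [this] at h3
      exact (dvd_neg.mp h3)
  have h7 : t = 0 := Int.eq_zero_of_abs_lt_dvd h6 (by linarith)
  exact hcon m h7

section General

variable {I : Type} (φ : (I → ℤ) →+ ℤ)

/-- The additive map `ℤ^ℕ → ℤ^I`, `a ↦ (i ↦ a (idx i) * x i)`. -/
def spread (idx : I → ℕ) (x : I → ℤ) : (ℕ → ℤ) →+ (I → ℤ) where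
  toFun a := fun i => a (idx i) * x i
  map_zero' := by funext i; simp
  map_add' a b := by funext i; simp [add_mul]

lemma spread_single (idx : I → ℕ) (x : I → ℤ) (n : ℕ) :
    spread idx x (Pi.single n 1) = fun i => if idx i = n then x i else 0 := by
  funext i
  simp only [spread, AddMonoidHom.coe_mk, ZeroHom.coe_mk, Pi.single_apply]
  by_cases h : idx i = n <;> simp [h]

lemma spread_one (idx : I → ℕ) (x : I → ℤ) : spread idx x (fun _ => 1) = x := by
  funext i
  simp [spread]

/-- `φ` vanishes on all functions supported in `A`. -/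
def Null (A : Set I) : Prop := ∀ x : I → ℤ, (∀ i, i ∉ A → x i = 0) → φ x = 0

variable {φ}

lemma Null.mono {A B : Set I} (h : Null φ B) (hAB : A ⊆ B) : Null φ A := by
  intro x hx
  exact h x (fun i hi => hx i (fun hiA => hi (hAB hiA)))

lemma Null.iUnion {A : ℕ → Set I} (h : ∀ n, Null φ (A n)) : Null φ (⋃ n, A n) := by
  classical
  intro x hx
  let idx : I → ℕ := fun i => if h : ∃ n, i ∈ A n then Nat.find h else 0
  have key := specker_zero (φ.comp (spread idx x)) (by
    intro n
    rw [AddMonoidHom.comp_apply, spread_single]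
    apply h n
    intro i hi
    by_cases hin : idx i = n
    · simp only [hin, if_true]
      by_cases hex : ∃ n, i ∈ A n
      · exfalso
        apply hi
        have : idx i = Nat.find hex := by simp [idx, hex]
        rw [← hin, this]
        exact Nat.find_spec hex
      · apply hx
        simpa using hex
    · simp [hin]) (fun _ => 1)
  rw [AddMonoidHom.comp_apply, spread_one] at key
  exact key

lemma Null.union {A B : Set I} (hA : Null φ A) (hB : Null φ B) : Null φ (A ∪ B) := by
  have h := Null.iUnion (φ := φ) (A := fun n : ℕ => if n = 0 then A else B) (by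
    intro n
    by_cases hn : n = 0
    · simpa [hn] using hA
    · simpa [hn] using hB)
  apply h.mono
  intro i hi
  rcases hi with hi | hi
  · exact Set.mem_iUnion.mpr ⟨0, by simpa using hi⟩
  · exact Set.mem_iUnion.mpr ⟨1, by simpa using hi⟩

lemma Null.empty : Null φ ∅ := by
  intro x hx
  have : x = 0 := funext fun i => hx i (by simp)
  rw [this, map_zero]

lemma exists_null_of_disjoint {A : ℕ → Set I} (h : Pairwise (Function.onFun Disjoint A)) :
    ∃ n, Null φ (A n) := by
  classical
  by_contra hcon
  simp only [Null] at hcon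
  push Not at hcon
  choose x hx hφ using hcon
  let idx : I → ℕ := fun i => if h : ∃ n, i ∈ A n then Nat.find h else 0
  let y : I → ℤ := fun i => if ∃ n, i ∈ A n then x (idx i) i else 0
  obtain ⟨n, hn⟩ := specker_exists (φ.comp (spread idx y))
  rw [AddMonoidHom.comp_apply, spread_single] at hn
  apply hφ n
  rw [← hn]
  congr 1
  funext i
  by_cases hi : i ∈ A n
  · have hex : ∃ n, i ∈ A n := ⟨n, hi⟩
    have hidx : idx i = n := by
      have h1 : idx i = Nat.find hex := by simp [idx, hex]
      rw [h1]
      by_contra hne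
      have hd := h hne
      exact Set.disjoint_left.mp hd (Nat.find_spec hex) hi
    simp [y, hidx, hex]
  · rw [hx n i hi]
    by_cases hidx : idx i = n
    · simp only [hidx, if_true, y]
      by_cases hex : ∃ n, i ∈ A n
      · exfalso
        have h1 : idx i = Nat.find hex := by simp [idx, hex]
        apply hi
        rw [← hidx, h1]
        exact Nat.find_spec hex
      · simp [hex]
    · simp [hidx]

end General

/-- Łoś's theorem for the index set `2^ℕ`: every additive map `ℤ^(2^ℕ) → ℤ` depends on finitely
many coordinates only. -/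
theorem los_cantor (φ : ((ℕ → Bool) → ℤ) →+ ℤ) :
    ∃ F : Finset (ℕ → Bool), ∀ x : (ℕ → Bool) → ℤ, (∀ i ∈ F, x i = 0) → φ x = 0 := by
  classical
  -- big sets
  let Big : Set (ℕ → Bool) → Prop := fun A => ∀ F : Finset (ℕ → Bool), ¬ Null φ (A \ F)
  by_cases hbig : Big Set.univ
  · exfalso
    have step : ∀ A, Big A → ∃ B, B ⊆ A ∧ Big B ∧ ¬ Null φ (A \ B) := by
      intro A hA
      by_contra hcon
      push Not at hcon
      have hbit : ∀ n : ℕ, ∃ b : Bool, Null φ (A ∩ {j | j n ≠ b}) := by
        intro n
        have : ∃ b : Bool, Big (A ∩ {j | j n = b}) := by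
          by_contra hno
          push Not at hno
          have h0 := hno false
          have h1 := hno true
          simp only [Big] at h0 h1
          push Not at h0 h1
          obtain ⟨F0, hF0⟩ := h0
          obtain ⟨F1, hF1⟩ := h1
          apply hA (F0 ∪ F1)
          apply (hF0.union hF1).mono
          intro j hj
          have hj1 : j ∈ A := hj.1
          have hj2 : j ∉ F0 ∧ j ∉ F1 := by
            have := hj.2
            simpa using this
          cases hjn : j n
          · left
            exact ⟨⟨hj1, hjn⟩, by simpa using hj2.1⟩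
          · right
            exact ⟨⟨hj1, hjn⟩, by simpa using hj2.2⟩
        obtain ⟨b, hb⟩ := this
        refine ⟨b, ?_⟩
        have h2 := hcon _ Set.inter_subset_left hb
        apply h2.mono
        intro j hj
        exact ⟨hj.1, fun h => hj.2 h.2⟩
      choose x hx using hbit
      apply hA {x}
      apply (Null.iUnion hx).mono
      intro j hj
      have hne : j ≠ x := by
        have := hj.2
        simpa using this
      obtain ⟨n, hn⟩ := Function.ne_iff.mp hne
      exact Set.mem_iUnion.mpr ⟨n, hj.1, hn⟩
    choose! B hBsub hBbig hBnull using step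
    let S : ℕ → Set (ℕ → Bool) := fun n => B^[n] Set.univ
    have hS0 : S 0 = Set.univ := rfl
    have hSs : ∀ n, S (n + 1) = B (S n) := fun n => Function.iterate_succ_apply' B n _
    have hSbig : ∀ n, Big (S n) := by
      intro n
      induction n with
      | zero => exact hbig
      | succ n ih => rw [hSs]; exact hBbig _ ih
    have hanti : Antitone S := by
      apply antitone_nat_of_succ_le
      intro n
      rw [hSs]
      exact hBsub _ (hSbig n)
    obtain ⟨n, hn⟩ := exists_null_of_disjoint (φ := φ) (A := fun n => S n \ S (n + 1)) (by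
      intro m n hmn
      rw [Function.onFun, Set.disjoint_left]
      intro i hi hi'
      rcases lt_or_gt_of_ne hmn with h | h
      · exact hi.2 (hanti (Nat.succ_le_of_lt h) hi'.1)
      · exact hi'.2 (hanti (Nat.succ_le_of_lt h) hi.1))
    apply hBnull _ (hSbig n)
    rw [← hSs]
    exact hn
  · simp only [Big] at hbig
    push Not at hbig
    obtain ⟨F, hF⟩ := hbig
    refine ⟨F, ?_⟩
    intro x hx
    apply hF
    intro i hi
    apply hx
    by_contra h
    exact hi ⟨Set.mem_univ _, by simpa using h⟩

end Pool.Agent.Helper26
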