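import Mathlib
import Pool.Agent.Helper26.Slender

set_option autoImplicit false

namespace Pool.Agent.Helper26

/-- The initial topology on `G` with respect to all homomorphisms to the discrete group `ℤ`. -/
@[instance_reducible] def dualTop (G : Type) [AddCommGroup G] : TopologicalSpace G :=
  ⨅ f : G →+ ℤ, TopologicalSpace.induced f ⊥

/-- The set of functions on the Cantor set depending on finitely many coordinates only. -/
def locSet : Set ((ℕ → Bool) → ℤ) :=
  ⋃ n : ℕ, Set.range (fun (g : (Fin n → Bool) → ℤ) (x : ℕ → Bool) => g (fun i => x i))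

lemma locSet_countable : locSet.Countable := by
  apply Set.countable_iUnion
  intro n
  exact Set.countable_range _

/-- Finite prescriptions can be met in `locSet`. -/
lemma locSet_interp (F : Finset (ℕ → Bool)) (x : (ℕ → Bool) → ℤ) :
    ∃ d ∈ locSet, ∀ i ∈ F, d i = x i := by
  classical
  -- a level separating the points of `F`
  have hsep : ∃ n : ℕ, ∀ i ∈ F, ∀ j ∈ F, (∀ k < n, i k = j k) → i = j := by
    have h : ∀ p : (ℕ → Bool) × (ℕ → Bool), ∃ n : ℕ, (∀ k < n, p.1 k = p.2 k) → p.1 = p.2 := by
      intro p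
      by_cases hp : p.1 = p.2
      · exact ⟨0, fun _ => hp⟩
      · obtain ⟨k, hk⟩ := Function.ne_iff.mp hp
        exact ⟨k + 1, fun h => absurd (h k (Nat.lt_succ_self k)) hk⟩
    choose N hN using h
    refine ⟨(F ×ˢ F).sup N, ?_⟩
    intro i hi j hj hij
    apply hN (i, j)
    intro k hk
    apply hij k
    refine lt_of_lt_of_le hk ?_
    exact Finset.le_sup (f := N) (Finset.mem_product.mpr ⟨hi, hj⟩)
  obtain ⟨n, hn⟩ := hsep
  let g : (Fin n → Bool) → ℤ := fun s =>
    if h : ∃ i ∈ F, (fun k : Fin n => i k) = s then x h.choose else 0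
  refine ⟨fun y => g (fun k => y k), Set.mem_iUnion.mpr ⟨n, g, rfl⟩, ?_⟩
  intro i hi
  have hex : ∃ j ∈ F, (fun k : Fin n => j k) = (fun k : Fin n => i k) := ⟨i, hi, rfl⟩
  have h1 : g (fun k : Fin n => i k) = x hex.choose := by
    simp only [g]
    rw [dif_pos hex]
  show g (fun k : Fin n => i k) = x i
  rw [h1]
  congr 1
  apply hn _ hex.choose_spec.1 _ hi
  intro k hk
  exact congrFun hex.choose_spec.2 ⟨k, hk⟩

end Pool.Agent.Helper26
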