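import Pool.Agent.Helper29.WV.RT

/-! Block CHV: Chvatal's theorem with uniqueness and the rigidity of the cocktail party gadget. -/

namespace WV

open SimpleGraph

namespace Chv

lemma cont_of {A V : Type} {T : SimpleGraph A} {G : SimpleGraph V} (f : A → V)
    (hf : Function.Injective f) (hadj : ∀ a b, T.Adj a b → G.Adj (f a) (f b)) : T ⊑ G :=
  ⟨⟨⟨f, fun {a b} h => hadj a b h⟩, hf⟩⟩

/-- a tree with an edge has a leaf. -/
lemma exists_leaf {A : Type} [Fintype A] {T : SimpleGraph A} (hT : T.IsTree) {N : ℕ}
    (hN : Fintype.card A = N + 1) (hN1 : 1 ≤ N) :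
    ∃ l w, T.Adj l w ∧ ∀ u, T.Adj l u → u = w := by
  classical
  have hne : Nonempty A := Fintype.card_pos_iff.1 (by omega)
  obtain ⟨f⟩ := hne
  obtain ⟨R, hRf, hRG⟩ := exists_RT hT f
  obtain ⟨l, _, hl⟩ := Finset.exists_max_image (Finset.univ : Finset A) R.dep ⟨f, Finset.mem_univ _⟩
  have hlr : l ≠ R.root := by
    intro h
    obtain ⟨v, hv⟩ := Fintype.exists_ne_of_one_lt_card (by omega : 1 < Fintype.card A) R.root
    have h1 := hl v (Finset.mem_univ _)
    rcases R.dep_anc (R.root_anc v) with h2 | h2
    · exact hv h2.symm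
    · rw [h] at h1; omega
  refine ⟨l, R.par l, ?_, ?_⟩
  · rw [← hRG]; exact R.adj_par hlr
  · intro u hu
    rw [← hRG, RT.adj_iff] at hu
    rcases hu with ⟨_, h⟩ | ⟨h1, h2⟩
    · exact h.symm
    · have h3 := R.dep_par u h1
      rw [h2] at h3
      have := hl u (Finset.mem_univ _)
      omega

/-- greedy embedding of a rooted tree. -/
lemma greedy {A V : Type} (Q : RT A) (G : SimpleGraph V) (S : Finset V) (D : ℕ)
    [DecidableEq A] [DecidableEq V] [DecidableRel G.Adj]
    (hD : ∀ v ∈ S, D ≤ (S.filter (G.Adj v)).card) {x : V} (hx : x ∈ S) :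
    ∀ (n : ℕ) (B : Finset A), B.card = n → Q.root ∈ B → (∀ u ∈ B, u ≠ Q.root → Q.par u ∈ B) →
      B.card ≤ D + 1 → ∃ f : A → V, Set.InjOn f B ∧ f Q.root = x ∧ (∀ u ∈ B, f u ∈ S) ∧
        ∀ u ∈ B, u ≠ Q.root → G.Adj (f (Q.par u)) (f u) := by
  intro n
  induction n with
  | zero =>
    intro B hB hr
    rw [Finset.card_eq_zero] at hB
    rw [hB] at hr
    exact absurd hr (Finset.notMem_empty _)
  | succ n ih =>
    intro B hB hr hanc hBD
    by_cases hone : ∀ u ∈ B, u = Q.root
    · refine ⟨fun _ => x, ?_, rfl, fun _ _ => hx, ?_⟩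
      · intro a ha b hb _
        rw [hone a ha, hone b hb]
      · intro u hu hne
        exact absurd (hone u hu) hne
    · push Not at hone
      obtain ⟨u₀, hu₀, hu₀r⟩ := hone
      obtain ⟨u, huB, hmax⟩ := Finset.exists_max_image B Q.dep ⟨u₀, hu₀⟩
      have hur : u ≠ Q.root := by
        intro h
        have h1 := hmax u₀ hu₀
        rcases Q.dep_anc (Q.root_anc u₀) with h2 | h2
        · exact hu₀r h2.symm
        · rw [h] at h1; omega
      have hpu : Q.par u ∈ B.erase u :=
        Finset.mem_erase.2 ⟨Q.par_ne hur, hanc u huB hur⟩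
      have hcard : (B.erase u).card = n := by
        rw [Finset.card_erase_of_mem huB, hB]; rfl
      obtain ⟨f, hinj, hroot, hS, hadj⟩ := ih (B.erase u) hcard
        (Finset.mem_erase.2 ⟨hur.symm, hr⟩)
        (by
          intro v hv hvr
          rw [Finset.mem_erase] at hv ⊢
          refine ⟨?_, hanc v hv.2 hvr⟩
          intro h
          have h1 := Q.dep_par v hvr
          rw [h] at h1
          have := hmax v hv.2
          omega)
        (by omega)
      -- a free neighbour
      obtain ⟨y, hy, hyn⟩ : ∃ y ∈ S.filter (G.Adj (f (Q.par u))), y ∉ (B.erase u).image f := by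
        by_contra hcon
        push Not at hcon
        have h1 : S.filter (G.Adj (f (Q.par u))) ⊆ ((B.erase u).image f).erase (f (Q.par u)) := by
          intro y hy
          rw [Finset.mem_erase]
          refine ⟨?_, hcon y hy⟩
          rintro rfl
          exact G.loopless.irrefl _ (Finset.mem_filter.1 hy).2
        have h2 := Finset.card_le_card h1
        rw [Finset.card_erase_of_mem (Finset.mem_image_of_mem f hpu)] at h2
        have h3 : ((B.erase u).image f).card ≤ n := hcard ▸ Finset.card_image_le
        have h4 := hD (f (Q.par u)) (hS _ hpu)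
        have h5 : 0 < ((B.erase u).image f).card :=
          Finset.card_pos.2 ⟨_, Finset.mem_image_of_mem f hpu⟩
        omega
      rw [Finset.mem_filter] at hy
      have hfu : ∀ v ∈ B, v ≠ u → Function.update f u y v = f v := fun v _ hv =>
        Function.update_of_ne hv _ _
      refine ⟨Function.update f u y, ?_, ?_, ?_, ?_⟩
      · intro a ha b hb hab
        by_cases hau : a = u
        · by_cases hbu : b = u
          · rw [hau, hbu]
          · exfalso
            rw [hau, Function.update_self, hfu b hb hbu] at hab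
            apply hyn
            rw [hab]
            exact Finset.mem_image_of_mem f (Finset.mem_erase.2 ⟨hbu, hb⟩)
        · by_cases hbu : b = u
          · exfalso
            rw [hbu, Function.update_self, hfu a ha hau] at hab
            apply hyn
            rw [← hab]
            exact Finset.mem_image_of_mem f (Finset.mem_erase.2 ⟨hau, ha⟩)
          · rw [hfu a ha hau, hfu b hb hbu] at hab
            exact hinj (Finset.mem_coe.2 (Finset.mem_erase.2 ⟨hau, ha⟩))
              (Finset.mem_coe.2 (Finset.mem_erase.2 ⟨hbu, hb⟩)) hab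
      · rw [Function.update_of_ne hur.symm, hroot]
      · intro v hv
        by_cases hvu : v = u
        · rw [hvu, Function.update_self]; exact hy.1
        · rw [hfu v hv hvu]; exact hS v (Finset.mem_erase.2 ⟨hvu, hv⟩)
      · intro v hv hvr
        by_cases hvu : v = u
        · rw [hvu, Function.update_self, Function.update_of_ne (Q.par_ne hur)]
          exact hy.2
        · have h1 : Q.par v ≠ u := by
            intro h
            have h1 := Q.dep_par v hvr
            rw [h] at h1
            have := hmax v hv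
            omega
          rw [hfu v hv hvu, Function.update_of_ne h1]
          exact hadj v (Finset.mem_erase.2 ⟨hvu, hv⟩) hvr

lemma cont_of_RT {A V : Type} {T : SimpleGraph A} {G : SimpleGraph V} (Q : RT A) (hQ : Q.G = T)
    (f : A → V) (hf : Function.Injective f)
    (hadj : ∀ u, u ≠ Q.root → G.Adj (f (Q.par u)) (f u)) : T ⊑ G := by
  refine cont_of f hf ?_
  intro a b h
  rw [← hQ, RT.adj_iff] at h
  rcases h with ⟨h1, h2⟩ | ⟨h1, h2⟩
  · rw [← h2]; exact (hadj a h1).symm
  · rw [← h2]; exact hadj b h1

/-- independence number at most `m`. -/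
def Al {V : Type} (G : SimpleGraph V) (S : Finset V) (m : ℕ) : Prop :=
  ∀ I ⊆ S, (∀ x ∈ I, ∀ y ∈ I, x ≠ y → ¬ G.Adj x y) → I.card ≤ m

/-- the closed neighbourhood in `S` -/
def nb {V : Type} (G : SimpleGraph V) [DecidableEq V] [DecidableRel G.Adj] (S : Finset V) (v : V) :
    Finset V := insert v (S.filter (G.Adj v))

lemma card_nb {V : Type} (G : SimpleGraph V) [DecidableEq V] [DecidableRel G.Adj] (S : Finset V)
    (v : V) : (nb G S v).card = (S.filter (G.Adj v)).card + 1 := by
  rw [nb, Finset.card_insert_of_notMem]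
  intro h
  exact G.loopless.irrefl _ (Finset.mem_filter.1 h).2

lemma al_sdiff {V : Type} (G : SimpleGraph V) [DecidableEq V] [DecidableRel G.Adj] {S : Finset V}
    {v : V} (hv : v ∈ S) {m : ℕ} (h : Al G S (m + 1)) : Al G (S \ nb G S v) m := by
  intro I hI hind
  have hvI : v ∉ I := by
    intro h1
    have := hI h1
    rw [Finset.mem_sdiff] at this
    exact this.2 (Finset.mem_insert_self _ _)
  have hnadj : ∀ x ∈ I, ¬ G.Adj v x := by
    intro x hx hadj
    have := hI hx
    rw [Finset.mem_sdiff] at this
    exact this.2 (Finset.mem_insert_of_mem (Finset.mem_filter.2 ⟨this.1, hadj⟩))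
  have h1 := h (insert v I) (by
      intro x hx
      rcases Finset.mem_insert.1 hx with rfl | hx
      · exact hv
      · exact (Finset.mem_sdiff.1 (hI hx)).1) (by
      intro x hx y hy hxy
      rcases Finset.mem_insert.1 hx with hx | hx
      · rcases Finset.mem_insert.1 hy with hy | hy
        · rw [hx, hy] at hxy; exact absurd rfl hxy
        · rw [hx]; exact hnadj y hy
      · rcases Finset.mem_insert.1 hy with hy | hy
        · rw [hy]; exact fun h => hnadj x hx h.symm
        · exact hind x hx y hy hxy)
  rw [Finset.card_insert_of_notMem hvI] at h1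
  omega

/-- Chvatal's theorem. -/
lemma chv {A V : Type} [Fintype A] {T : SimpleGraph A} (hT : T.IsTree) {N : ℕ}
    (hN : Fintype.card A = N + 1) {G : SimpleGraph V} [DecidableEq V] [DecidableRel G.Adj]
    (hG : ¬ T ⊑ G) : ∀ (m : ℕ) (S : Finset V), Al G S m → S.card ≤ N * m := by
  classical
  have hne : Nonempty A := Fintype.card_pos_iff.1 (by omega)
  obtain ⟨w⟩ := hne
  obtain ⟨Q, hQ, hQG⟩ := exists_RT hT w
  intro m
  induction m with
  | zero =>
    intro S hS
    rw [Nat.mul_zero, Nat.le_zero, Finset.card_eq_zero, Finset.eq_empty_iff_forall_notMem]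
    intro x hx
    have := hS {x} (Finset.singleton_subset_iff.2 hx) (by
      intro a ha b hb hab
      rw [Finset.mem_singleton] at ha hb
      rw [ha, hb] at hab
      exact absurd rfl hab)
    rw [Finset.card_singleton] at this
    omega
  | succ m ih =>
    intro S hS
    by_cases hall : ∀ v ∈ S, N ≤ (S.filter (G.Adj v)).card
    · rcases S.eq_empty_or_nonempty with h | ⟨x, hx⟩
      · rw [h]; simp
      · exfalso
        obtain ⟨f, hinj, _, _, hadj⟩ := greedy Q G S N hall hx (N + 1) Finset.univ
          (by rw [Finset.card_univ, hN]) (Finset.mem_univ _) (fun _ _ _ => Finset.mem_univ _)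
          (by rw [Finset.card_univ, hN])
        apply hG
        refine cont_of_RT Q hQG f ?_ (fun u hu => hadj u (Finset.mem_univ _) hu)
        intro a b hab
        exact hinj (Finset.mem_coe.2 (Finset.mem_univ _)) (Finset.mem_coe.2 (Finset.mem_univ _)) hab
    · push Not at hall
      obtain ⟨v, hv, hdeg⟩ := hall
      have h1 := ih (S \ nb G S v) (al_sdiff G hv hS)
      have h2 := Finset.card_le_card_sdiff_add_card (s := S) (t := nb G S v)
      rw [card_nb] at h2
      rw [Nat.mul_succ]
      omega

section Eq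
variable {A V : Type} [Fintype A] {T : SimpleGraph A} (hT : T.IsTree) {N : ℕ}
    (hN : Fintype.card A = N + 1) (hN1 : 1 ≤ N) {G : SimpleGraph V} [DecidableEq V]
    [DecidableRel G.Adj] (hG : ¬ T ⊑ G)

include hT hN hG

lemma deg_ge {q : ℕ} {S : Finset V} (hS : S.card = N * q) (hA : Al G S q) {v : V} (hv : v ∈ S) :
    N ≤ (nb G S v).card := by
  cases q with
  | zero =>
    exfalso
    rw [Nat.mul_zero, Finset.card_eq_zero] at hS
    rw [hS] at hv
    exact absurd hv (Finset.notMem_empty _)
  | succ q =>
    have h1 := chv hT hN hG q (S \ nb G S v) (al_sdiff G hv hA)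
    have h2 := Finset.card_le_card_sdiff_add_card (s := S) (t := nb G S v)
    rw [hS, Nat.mul_succ] at h2
    omega

include hN1

lemma deg_eq {q : ℕ} {S : Finset V} (hS : S.card = N * q) (hA : Al G S q) {v : V} (hv : v ∈ S) :
    (nb G S v).card = N := by
  classical
  refine le_antisymm ?_ (deg_ge hT hN hG hS hA hv)
  by_contra hcon
  push Not at hcon
  obtain ⟨l, w, hlw, hl⟩ := exists_leaf hT hN hN1
  obtain ⟨Q, hQ, hQG⟩ := exists_RT hT w
  have hlr : l ≠ Q.root := by rw [hQ]; exact hlw.ne
  have hpar : Q.par l = w := by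
    apply hl
    rw [← hQG]; exact Q.adj_par hlr
  have hch : ∀ u, u ≠ Q.root → Q.par u ≠ l := by
    intro u hu h
    have h1 : T.Adj l u := by
      rw [← hQG, ← h]; exact (Q.adj_par hu).symm
    have h2 := hl u h1
    rw [← hQ] at h2
    exact hu h2
  obtain ⟨f, hinj, hroot, hfS, hadj⟩ := greedy Q G S (N - 1)
    (fun u hu => by
      have := deg_ge hT hN hG hS hA hu
      rw [card_nb] at this
      omega) hv N (Finset.univ.erase l)
    (by rw [Finset.card_erase_of_mem (Finset.mem_univ _), Finset.card_univ, hN]; rfl)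
    (Finset.mem_erase.2 ⟨hlr.symm, Finset.mem_univ _⟩)
    (fun u _ hu => Finset.mem_erase.2 ⟨hch u hu, Finset.mem_univ _⟩)
    (by rw [Finset.card_erase_of_mem (Finset.mem_univ _), Finset.card_univ, hN]; omega)
  obtain ⟨y, hy, hyn⟩ : ∃ y ∈ S.filter (G.Adj v), y ∉ (Finset.univ.erase l).image f := by
    by_contra hcon2
    push Not at hcon2
    have hroot2 : v ∈ (Finset.univ.erase l).image f := by
      rw [← hroot]
      exact Finset.mem_image_of_mem f (Finset.mem_erase.2 ⟨hlr.symm, Finset.mem_univ _⟩)
    have h1 : nb G S v ⊆ (Finset.univ.erase l).image f := by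
      intro y hy
      rcases Finset.mem_insert.1 hy with hy | hy
      · rw [hy]; exact hroot2
      · exact hcon2 y hy
    have h2 := Finset.card_le_card h1
    have h3 : ((Finset.univ.erase l).image f).card ≤ (Finset.univ.erase l).card :=
      Finset.card_image_le
    rw [Finset.card_erase_of_mem (Finset.mem_univ _), Finset.card_univ, hN] at h3
    omega
  rw [Finset.mem_filter] at hy
  apply hG
  refine cont_of_RT Q hQG (Function.update f l y) ?_ ?_
  · intro a b hab
    by_cases hal : a = l
    · by_cases hbl : b = l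
      · rw [hal, hbl]
      · exfalso
        rw [hal, Function.update_self, Function.update_of_ne hbl] at hab
        apply hyn
        rw [hab]
        exact Finset.mem_image_of_mem f (Finset.mem_erase.2 ⟨hbl, Finset.mem_univ _⟩)
    · by_cases hbl : b = l
      · exfalso
        rw [hbl, Function.update_self, Function.update_of_ne hal] at hab
        apply hyn
        rw [← hab]
        exact Finset.mem_image_of_mem f (Finset.mem_erase.2 ⟨hal, Finset.mem_univ _⟩)
      · rw [Function.update_of_ne hal, Function.update_of_ne hbl] at hab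
        exact hinj (Finset.mem_coe.2 (Finset.mem_erase.2 ⟨hal, Finset.mem_univ _⟩))
          (Finset.mem_coe.2 (Finset.mem_erase.2 ⟨hbl, Finset.mem_univ _⟩)) hab
  · intro u hu
    rw [Function.update_of_ne (hch u hu)]
    by_cases hul : u = l
    · rw [hul, Function.update_self, hpar, ← hQ, hroot]
      exact hy.2
    · rw [Function.update_of_ne hul]
      exact hadj u (Finset.mem_erase.2 ⟨hul, Finset.mem_univ _⟩) hu

lemma nb_clique {q : ℕ} {S : Finset V} (hS : S.card = N * q) (hA : Al G S q) {v : V} (hv : v ∈ S) :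
    ∀ x ∈ nb G S v, ∀ y ∈ nb G S v, x ≠ y → G.Adj x y := by
  intro x hx y hy hxy
  rcases Finset.mem_insert.1 hx with hxv | hx
  · rcases Finset.mem_insert.1 hy with hyv | hy
    · rw [hxv, hyv] at hxy; exact absurd rfl hxy
    · rw [hxv]; exact (Finset.mem_filter.1 hy).2
  rcases Finset.mem_insert.1 hy with hyv | hy
  · rw [hyv]; exact (Finset.mem_filter.1 hx).2.symm
  rw [Finset.mem_filter] at hx hy
  by_contra hnadj
  have hq2 : 2 ≤ q := by
    have := hA {x, y} (by
      intro z hz
      rw [Finset.mem_insert, Finset.mem_singleton] at hz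
      rcases hz with rfl | rfl
      · exact hx.1
      · exact hy.1) (by
      intro a ha b hb hab
      rw [Finset.mem_insert, Finset.mem_singleton] at ha hb
      rcases ha with rfl | rfl <;> rcases hb with rfl | rfl
      · exact absurd rfl hab
      · exact hnadj
      · exact fun h => hnadj h.symm
      · exact absurd rfl hab)
    rwa [Finset.card_pair hxy] at this
  obtain ⟨r, rfl⟩ := Nat.exists_eq_add_of_le hq2
  have hA1 : Al G (S \ nb G S x) (1 + r) := al_sdiff G hx.1 (by rwa [show 1 + r + 1 = 2 + r by omega])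
  have hyS : y ∈ S \ nb G S x := by
    rw [Finset.mem_sdiff]
    refine ⟨hy.1, ?_⟩
    intro h
    rcases Finset.mem_insert.1 h with h | h
    · exact hxy h.symm
    · exact hnadj (Finset.mem_filter.1 h).2
  have hA2 : Al G ((S \ nb G S x) \ nb G (S \ nb G S x) y) r :=
    al_sdiff G hyS (by rwa [show r + 1 = 1 + r by omega])
  have h1 := chv hT hN hG r _ hA2
  have hsub : S \ (nb G S x ∪ nb G S y) ⊆ (S \ nb G S x) \ nb G (S \ nb G S x) y := by
    intro z hz
    rw [Finset.mem_sdiff, Finset.mem_union, not_or] at hz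
    rw [Finset.mem_sdiff, Finset.mem_sdiff]
    refine ⟨⟨hz.1, hz.2.1⟩, ?_⟩
    intro h
    apply hz.2.2
    rcases Finset.mem_insert.1 h with h | h
    · rw [h]; exact Finset.mem_insert_self _ _
    · rw [Finset.mem_filter, Finset.mem_sdiff] at h
      exact Finset.mem_insert_of_mem (Finset.mem_filter.2 ⟨h.1.1, h.2⟩)
  have h2 := Finset.card_le_card hsub
  have h3 := Finset.card_le_card_sdiff_add_card (s := S) (t := nb G S x ∪ nb G S y)
  have h4 := Finset.card_union_add_card_inter (nb G S x) (nb G S y)
  rw [deg_eq hT hN hN1 hG hS hA hx.1, deg_eq hT hN hN1 hG hS hA hy.1] at h4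
  have h5 : 0 < (nb G S x ∩ nb G S y).card := by
    apply Finset.card_pos.2
    refine ⟨v, Finset.mem_inter.2 ⟨?_, ?_⟩⟩
    · exact Finset.mem_insert_of_mem (Finset.mem_filter.2 ⟨hv, hx.2.symm⟩)
    · exact Finset.mem_insert_of_mem (Finset.mem_filter.2 ⟨hv, hy.2.symm⟩)
  have h6 : N * (2 + r) = N * r + 2 * N := by ring
  rw [hS, h6] at h3
  omega

end Eq

end Chv

open Chv

theorem pendant {A V : Type} [Fintype A] {T : SimpleGraph A} (hT : T.IsTree) {N : ℕ}
    (hN : Fintype.card A = N + 1) (hN1 : 1 ≤ N) {R : SimpleGraph V} (q : Fin N → V)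
    (hq : Function.Injective q) (hadj : ∀ i j, i ≠ j → R.Adj (q i) (q j)) (i : Fin N) {x : V}
    (hx : ∀ j, q j ≠ x) (hx1 : R.Adj (q i) x) : T ⊑ R := by
  classical
  obtain ⟨l, w, hlw, hl⟩ := exists_leaf hT hN hN1
  have hcard : Fintype.card {a : A // a ≠ l} = Fintype.card (Fin N) := by
    rw [Fintype.card_subtype_compl, Fintype.card_subtype_eq, hN, Fintype.card_fin]
    rfl
  let e0 : {a : A // a ≠ l} ≃ Fin N := Fintype.equivOfCardEq hcard
  have hwl : w ≠ l := hlw.ne.symm
  let e1 : {a : A // a ≠ l} ≃ Fin N := e0.trans (Equiv.swap (e0 ⟨w, hwl⟩) i)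
  have he1 : e1 ⟨w, hwl⟩ = i := by
    show Equiv.swap (e0 ⟨w, hwl⟩) i (e0 ⟨w, hwl⟩) = i
    exact Equiv.swap_apply_left _ _
  have hf : ∀ a (h : a ≠ l), (if h : a = l then x else q (e1 ⟨a, h⟩)) = q (e1 ⟨a, h⟩) :=
    fun a h => dif_neg h
  have hfl : (if h : l = l then x else q (e1 ⟨l, h⟩)) = x := dif_pos rfl
  refine cont_of (fun a => if h : a = l then x else q (e1 ⟨a, h⟩)) ?_ ?_
  · intro a b hab
    simp only at hab
    by_cases ha : a = l
    · by_cases hb : b = l
      · rw [ha, hb]
      · rw [dif_pos ha, dif_neg hb] at hab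
        exact absurd hab.symm (hx _)
    · by_cases hb : b = l
      · rw [dif_neg ha, dif_pos hb] at hab
        exact absurd hab (hx _)
      · rw [dif_neg ha, dif_neg hb] at hab
        have := e1.injective (hq hab)
        exact congrArg Subtype.val this
  · intro a b hab
    by_cases ha : a = l
    · have hb : b = w := hl b (ha ▸ hab)
      rw [dif_pos ha]
      subst hb
      rw [dif_neg hwl, he1]
      exact hx1.symm
    · by_cases hb : b = l
      · have ha' : a = w := hl a (hb ▸ hab.symm)
        rw [dif_pos hb]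
        subst ha'
        rw [dif_neg hwl, he1]
        exact hx1
      · rw [dif_neg ha, dif_neg hb]
        apply hadj
        intro h
        have := congrArg Subtype.val (e1.injective h)
        exact hab.ne this

theorem ZG_rigid {A : Type} [Fintype A] {T : SimpleGraph A} (hT : T.IsTree) {N q : ℕ}
    (hN : Fintype.card A = N + 1) (hN1 : 1 ≤ N) {V : Type} {F R : SimpleGraph V} (hRF : R ≤ F)
    (e : Fin q × Bool × Fin N → V) (he : Function.Injective e)
    (hF : ∀ x y, (ZG q N).Adj x y → F.Adj (e x) (e y)) (hRT : ¬ T ⊑ R)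
    (hB : ¬ (⊤ : SimpleGraph (Fin (q + 1))) ⊑ F \ R) :
    ∀ x y, (ZG q N).Adj x y → (R.Adj (e x) (e y) ↔ x.1 = y.1) := by
  classical
  -- the sections
  let sec : (Fin q → Bool) → Finset V := fun s =>
    (Finset.univ : Finset (Fin q × Fin N)).image fun kc => e (kc.1, s kc.1, kc.2)
  have hmem : ∀ s v, v ∈ sec s ↔ ∃ k c, v = e (k, s k, c) := by
    intro s v
    constructor
    · intro h
      obtain ⟨kc, _, h⟩ := Finset.mem_image.1 h
      exact ⟨kc.1, kc.2, h.symm⟩
    · rintro ⟨k, c, h⟩
      exact Finset.mem_image.2 ⟨(k, c), Finset.mem_univ _, h.symm⟩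
  have hcard : ∀ s, (sec s).card = N * q := by
    intro s
    show ((Finset.univ : Finset (Fin q × Fin N)).image _).card = _
    rw [Finset.card_image_of_injective, Finset.card_univ, Fintype.card_prod, Fintype.card_fin,
      Fintype.card_fin, Nat.mul_comm]
    intro a b hab
    have := he hab
    simp only [Prod.mk.injEq] at this
    exact Prod.ext this.1 this.2.2
  have hAl : ∀ s, Al R (sec s) q := by
    intro s I hI hind
    by_contra hcon
    push Not at hcon
    obtain ⟨I', hI', hI'c⟩ := Finset.exists_subset_card_eq (Nat.succ_le_of_lt hcon)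
    apply hB
    have hc : Fintype.card I' = Fintype.card (Fin (q + 1)) := by
      rw [Fintype.card_coe, hI'c, Fintype.card_fin]
    let ε := (Fintype.equivOfCardEq hc).symm
    refine cont_of (fun i => (ε i : V)) (fun a b hab => ε.injective (Subtype.ext hab)) ?_
    intro a b hab
    have hne : (ε a : V) ≠ (ε b : V) := by
      intro h
      exact hab (ε.injective (Subtype.ext h))
    have ha := hI' (ε a).2
    have hb := hI' (ε b).2
    rw [SimpleGraph.sdiff_adj]
    refine ⟨?_, hind _ ha _ hb hne⟩
    obtain ⟨k, c, hk⟩ := (hmem s _).1 (hI ha)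
    obtain ⟨k', c', hk'⟩ := (hmem s _).1 (hI hb)
    rw [hk, hk'] at hne ⊢
    apply hF
    refine ⟨fun h => hne (congrArg e h), ?_⟩
    intro h
    simp only at h ⊢
    rw [h]
  -- no red edges between different pairs
  have hfirst : ∀ x y : Fin q × Bool × Fin N, x.1 ≠ y.1 → ¬ R.Adj (e x) (e y) := by
    rintro ⟨i, b, c⟩ ⟨j, b', d⟩ hij hadj
    simp only at hij
    let s : Fin q → Bool := fun k => if k = j then b' else !b
    have hsj : s j = b' := if_pos rfl
    have hsi : s i = !b := if_neg hij
    have hy : e (j, b', d) ∈ sec s := (hmem s _).2 ⟨j, d, by rw [hsj]⟩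
    have hxn : e (i, b, c) ∉ sec s := by
      intro h
      obtain ⟨k, c', h⟩ := (hmem s _).1 h
      have h1 := he h
      simp only [Prod.mk.injEq] at h1
      have h2 := h1.2.1
      rw [← h1.1, hsi] at h2
      revert h2
      cases b <;> simp
    have hc := deg_eq hT hN hN1 hRT (hcard s) (hAl s) hy
    have hcl := nb_clique hT hN hN1 hRT (hcard s) (hAl s) hy
    have hcc : Fintype.card (nb R (sec s) (e (j, b', d))) = Fintype.card (Fin N) := by
      rw [Fintype.card_coe, hc, Fintype.card_fin]
    let ε := (Fintype.equivOfCardEq hcc).symm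
    have hself : e (j, b', d) ∈ nb R (sec s) (e (j, b', d)) := Finset.mem_insert_self _ _
    apply hRT
    refine pendant hT hN hN1 (fun i => (ε i : V)) (fun a b hab => ε.injective (Subtype.ext hab)) ?_
      (ε.symm ⟨_, hself⟩) (x := e (i, b, c)) ?_ ?_
    · intro a b hab
      apply hcl _ (ε a).2 _ (ε b).2
      intro h
      exact hab (ε.injective (Subtype.ext h))
    · intro a h
      apply hxn
      rw [← h]
      rcases Finset.mem_insert.1 (ε a).2 with h1 | h1
      · rw [h1]; exact hy
      · exact (Finset.mem_filter.1 h1).1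
    · simp only [Equiv.apply_symm_apply]
      exact hadj.symm
  intro x y hxy
  constructor
  · intro h
    by_contra hne
    exact hfirst x y hne h
  · intro h
    obtain ⟨i, b, c⟩ := x
    obtain ⟨j, b', d⟩ := y
    have hb := hxy.2 h
    simp only at h hb
    subst h
    subst hb
    let s : Fin q → Bool := fun _ => b
    have hx : e (i, b, c) ∈ sec s := (hmem s _).2 ⟨i, c, rfl⟩
    have hc := deg_eq hT hN hN1 hRT (hcard s) (hAl s) hx
    let blk : Finset V := Finset.univ.image fun c' : Fin N => e (i, b, c')
    have hblk : blk.card = N := by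
      show (Finset.univ.image fun c' : Fin N => e (i, b, c')).card = N
      rw [Finset.card_image_of_injective, Finset.card_univ, Fintype.card_fin]
      intro a a' ha
      have := he ha
      simp only [Prod.mk.injEq] at this
      exact this.2.2
    have hsub : nb R (sec s) (e (i, b, c)) ⊆ blk := by
      intro z hz
      rcases Finset.mem_insert.1 hz with hz | hz
      · rw [hz]; exact Finset.mem_image.2 ⟨c, Finset.mem_univ _, rfl⟩
      · rw [Finset.mem_filter] at hz
        obtain ⟨k, c', hk⟩ := (hmem s _).1 hz.1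
        have hki : k = i := by
          by_contra hne
          have := hz.2
          rw [hk] at this
          exact hfirst (i, b, c) (k, s k, c') (fun h => hne h.symm) this
        rw [hk, hki]
        exact Finset.mem_image.2 ⟨c', Finset.mem_univ _, rfl⟩
    have heq := Finset.eq_of_subset_of_card_le hsub (by rw [hblk, hc])
    have hy : e (i, b, d) ∈ nb R (sec s) (e (i, b, c)) := by
      rw [heq]
      exact Finset.mem_image.2 ⟨d, Finset.mem_univ _, rfl⟩
    rcases Finset.mem_insert.1 hy with hy | hy
    · exact absurd (he hy).symm hxy.1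
    · exact (Finset.mem_filter.1 hy).2

end WV
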